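import Pool.Agent.K1H84.RD.Stm

/-! Restricted digits: from the weighted counts to the averages of `R (x, y)`. -/

set_option autoImplicit false

namespace Pool.Agent.K1H33.RD

open Finset Filter
open Pool.Agent.W301.SS
open Pool.Agent.H807R2.Dav
open Pool.Agent.K1H84.RD

/-- From weights to the averages. -/
theorem conv_avg (S : Finset ℕ) (hS : 0 < S.card) (b X : ℕ) (hb : 1 ≤ b) (hX : 1 ≤ X)
    (e Λ y : ℝ) (he0 : 0 < e) (he1 : e ≤ 1 / 8) (hy : 1 / e ≤ y)
    (hΛ : ∀ s ∈ S, Real.log ((s + b + ⌊y⌋₊ : ℕ) : ℝ) ≤ Λ) (hΛX : (1 - 2 * e) * Λ ≤ Real.log (X : ℝ))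
    (hsmall : ((S.filter (fun s => s < X)).card : ℝ) * Λ ≤ e * S.card)
    (hTh : |∑ s ∈ S, ∑ h ∈ Ioc 0 ⌊y⌋₊, om (s + b + h) - (⌊y⌋₊ : ℝ) * S.card| ≤
      e * ((⌊y⌋₊ : ℝ) * S.card)) :
    |(∑ s ∈ S, R ((s + b : ℕ) : ℝ) y) / S.card - 1| ≤ 8 * e := by
  have hy8 : 8 ≤ y := by
    refine le_trans ?_ hy
    rw [le_div_iff₀ he0]; linarith
  have hy0 : 0 < y := by linarith
  have hey : 1 ≤ e * y := by
    rw [div_le_iff₀ he0] at hy; linarith
  set H : ℕ := ⌊y⌋₊ with hH
  have hHy : (H : ℝ) ≤ y := Nat.floor_le hy0.le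
  have hyH : (1 - e) * y ≤ H := by
    have := Nat.lt_floor_add_one y
    rw [← hH] at this
    linarith
  have hH0 : (0 : ℝ) ≤ H := Nat.cast_nonneg _
  have hn0 : (0 : ℝ) < S.card := by exact_mod_cast hS
  set Th : ℕ → ℝ := fun s => ∑ h ∈ Ioc 0 H, om (s + b + h) with hThdef
  have hTh0 : ∀ s, 0 ≤ Th s := fun s => sum_nonneg fun _ _ => om_nonneg _
  have hL0 : ∀ s, 0 ≤ Real.log ((s + b : ℕ) : ℝ) := fun s => Real.log_natCast_nonneg _
  have eR : ∀ s, R ((s + b : ℕ) : ℝ) y = (pn (s + b) H : ℝ) * Real.log ((s + b : ℕ) : ℝ) / y := by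
    intro s
    unfold R
    rw [Nat.floor_natCast, pn_floor _ _ hy0.le, div_div_eq_mul_div]
  have up : ∀ s, (pn (s + b) H : ℝ) * Real.log ((s + b : ℕ) : ℝ) ≤ Th s := by
    intro s
    rw [pn_eq, sum_mul]
    apply sum_le_sum
    intro h _
    unfold om
    split_ifs with hp
    · rw [one_mul]
      apply Real.log_le_log
      · exact_mod_cast (by omega : 0 < s + b)
      · exact_mod_cast (by omega : s + b ≤ s + b + h)
    · rw [zero_mul]
  have hThP : ∀ s ∈ S, Th s ≤ Λ * pn (s + b) H := by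
    intro s hs
    rw [pn_eq, mul_sum]
    apply sum_le_sum
    intro h hh
    rw [mem_Ioc] at hh
    unfold om
    split_ifs with hp
    · rw [mul_one]
      refine le_trans (Real.log_le_log ?_ ?_) (hΛ s hs)
      · exact_mod_cast hp.pos
      · exact_mod_cast (by omega : s + b + h ≤ s + b + H)
    · rw [mul_zero]
  have hΛ0 : ∀ s ∈ S, 0 ≤ Λ := fun s hs => (Real.log_natCast_nonneg _).trans (hΛ s hs)
  have hThH : ∀ s ∈ S, Th s ≤ Λ * H := by
    intro s hs
    refine (hThP s hs).trans (mul_le_mul_of_nonneg_left ?_ (hΛ0 s hs))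
    exact_mod_cast pn_le _ _
  have low : ∀ s ∈ S, ¬ s < X →
      (1 - 2 * e) * Th s ≤ (pn (s + b) H : ℝ) * Real.log ((s + b : ℕ) : ℝ) := by
    intro s hs hsX
    have h1 : (1 - 2 * e) * Th s ≤ (1 - 2 * e) * (Λ * pn (s + b) H) :=
      mul_le_mul_of_nonneg_left (hThP s hs) (by linarith)
    have h2 : Real.log (X : ℝ) ≤ Real.log ((s + b : ℕ) : ℝ) := by
      apply Real.log_le_log
      · exact_mod_cast hX
      · exact_mod_cast (by omega : X ≤ s + b)
    have h3 : (0 : ℝ) ≤ pn (s + b) H := Nat.cast_nonneg _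
    have h4 := mul_le_mul_of_nonneg_right (hΛX.trans h2) h3
    linarith
  have hsum : ∑ s ∈ S, R ((s + b : ℕ) : ℝ) y =
      (∑ s ∈ S, (pn (s + b) H : ℝ) * Real.log ((s + b : ℕ) : ℝ)) / y := by
    rw [sum_div]
    exact sum_congr rfl fun s _ => eR s
  set T : ℝ := ∑ s ∈ S, (pn (s + b) H : ℝ) * Real.log ((s + b : ℕ) : ℝ) with hT
  have hup : T ≤ (1 + e) * (y * S.card) := by
    have h1 : T ≤ ∑ s ∈ S, Th s := sum_le_sum fun s _ => up s
    have h2 := (abs_le.1 hTh).2
    have h3 : (H : ℝ) * S.card ≤ y * S.card := mul_le_mul_of_nonneg_right hHy hn0.le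
    nlinarith
  have hlow : (1 - 5 * e) * (y * S.card) ≤ T := by
    have h1 : (1 - 2 * e) * ∑ s ∈ S.filter (fun s => ¬ s < X), Th s ≤ T := by
      rw [hT, ← sum_filter_add_sum_filter_not S (fun s => s < X), mul_sum]
      have h2 : 0 ≤ ∑ s ∈ S.filter (fun s => s < X),
          (pn (s + b) H : ℝ) * Real.log ((s + b : ℕ) : ℝ) :=
        sum_nonneg fun s _ => mul_nonneg (Nat.cast_nonneg _) (hL0 s)
      have h3 : ∑ s ∈ S.filter (fun s => ¬ s < X), (1 - 2 * e) * Th s ≤
          ∑ s ∈ S.filter (fun s => ¬ s < X),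
          (pn (s + b) H : ℝ) * Real.log ((s + b : ℕ) : ℝ) :=
        sum_le_sum fun s hs => low s (mem_filter.1 hs).1 (mem_filter.1 hs).2
      linarith
    have h2 : ∑ s ∈ S.filter (fun s => s < X), Th s ≤ e * (H * S.card) := by
      have h3 : ∑ s ∈ S.filter (fun s => s < X), Th s ≤ ∑ s ∈ S.filter (fun s => s < X), Λ * H :=
        sum_le_sum fun s hs => hThH s (mem_filter.1 hs).1
      rw [sum_const, nsmul_eq_mul] at h3
      have h4 := mul_le_mul_of_nonneg_right hsmall hH0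
      refine h3.trans (le_trans (le_of_eq ?_) (h4.trans (le_of_eq ?_))) <;> ring
    have h3 : ∑ s ∈ S, Th s = ∑ s ∈ S.filter (fun s => s < X), Th s +
        ∑ s ∈ S.filter (fun s => ¬ s < X), Th s := (sum_filter_add_sum_filter_not _ _ _).symm
    have h4 := (abs_le.1 hTh).1
    have h5 : (1 - 2 * e) * (H * S.card) ≤ ∑ s ∈ S.filter (fun s => ¬ s < X), Th s := by
      have : ∑ s ∈ S, Th s = ∑ s ∈ S, ∑ h ∈ Ioc 0 H, om (s + b + h) := rfl
      linarith
    have h6 : (1 - 2 * e) * ((1 - 2 * e) * (H * S.card)) ≤ T :=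
      (mul_le_mul_of_nonneg_left h5 (by linarith)).trans h1
    have h7 : (1 - e) * (y * S.card) ≤ H * S.card := by
      have := mul_le_mul_of_nonneg_right hyH hn0.le
      linarith
    have h8 : (1 - 2 * e) ^ 2 * ((1 - e) * (y * S.card)) ≤ (1 - 2 * e) ^ 2 * (H * S.card) :=
      mul_le_mul_of_nonneg_left h7 (sq_nonneg _)
    have h9 : (1 - 5 * e) * (y * S.card) ≤ (1 - 2 * e) ^ 2 * ((1 - e) * (y * S.card)) := by
      have hyn' : 0 ≤ y * S.card := by positivity
      have h10 : 1 - 5 * e ≤ (1 - 2 * e) ^ 2 * (1 - e) := by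
        nlinarith [sq_nonneg e, mul_nonneg (sq_nonneg e) (by linarith : (0 : ℝ) ≤ 1 / 8 - e)]
      have h11 := mul_le_mul_of_nonneg_right h10 hyn'
      linarith
    calc _ ≤ _ := h9
      _ ≤ _ := h8
      _ = (1 - 2 * e) * ((1 - 2 * e) * (H * S.card)) := by ring
      _ ≤ T := h6
  rw [hsum]
  have hyn : 0 < y * S.card := by positivity
  have e1 : T / y / S.card - 1 = (T - y * S.card) / (y * S.card) := by
    rw [div_div, sub_div, div_self hyn.ne']
  rw [e1, abs_div, abs_of_pos hyn, div_le_iff₀ hyn, abs_le]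
  constructor
  · nlinarith
  · nlinarith

lemma dset_congr (g : ℕ) (D D' : ℕ → Finset ℕ) (k : ℕ) (h : ∀ i < k, D i = D' i) :
    dset g D k = dset g D' k := by
  induction k with
  | zero => rfl
  | succ k ih =>
    simp only [dset]
    rw [ih (fun i hi => h i (by omega)), h k (by omega)]

lemma run_range (g : ℕ) : ((range g).filter (fun d => d + 1 ∉ range g)).card ≤ 1 := by
  rw [card_le_one]
  intro a ha b hb
  simp only [mem_filter, mem_range] at ha hb
  omega

theorem t_FIN (hθ : S_THETA) (hmaj : S_MAJ) (hdset : S_DSET) : S_FIN := by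
  intro θ t hθ1
  obtain ⟨δ, hδ0, hδ1, g₀, hg4, hg⟩ := hmaj θ (t + 1) hθ1
  refine ⟨g₀, fun g hgg ε hε => ?_⟩
  have hg4' : 4 ≤ g := hg4.trans hgg
  obtain ⟨K₁, k₁, hT⟩ := hθ g δ hg4' hδ0 hδ1 1
  set e : ℝ := min ε 1 / 8 with he
  have he0 : 0 < e := by rw [he]; have := lt_min hε one_pos; linarith
  have he1 : e ≤ 1 / 8 := by rw [he]; have := min_le_right ε 1; linarith
  have he8 : 8 * e ≤ ε := by rw [he]; have := min_le_left ε 1; linarith
  refine ⟨K₁ + k₁ + ⌈8 / e⌉₊ + ⌈32 * Real.log g / e ^ 3⌉₊ + 2, fun k hk D hsub hcard hrun b hb1 hbk y hy1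
    hy2 => ?_⟩
  set K : ℕ := K₁ + k₁ + ⌈8 / e⌉₊ + ⌈32 * Real.log g / e ^ 3⌉₊ + 2 with hK
  have hg0 : (0 : ℝ) < g := by positivity
  have hgr : (4 : ℝ) ≤ g := by exact_mod_cast hg4'
  have hlg : 1 ≤ Real.log g := by
    have h1 : Real.log 4 ≤ Real.log g := Real.log_le_log (by norm_num) hgr
    have h2 : Real.log 4 = 2 * Real.log 2 := by
      rw [show (4 : ℝ) = 2 ^ 2 by norm_num, Real.log_pow]; push_cast; ring
    have := Real.log_two_gt_d9
    linarith
  have hkK : (K : ℝ) ≤ k := by exact_mod_cast hk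
  have hk8 : 8 / e ≤ k := by
    refine (Nat.le_ceil _).trans (le_trans ?_ hkK)
    exact_mod_cast (by omega : ⌈8 / e⌉₊ ≤ K)
  have hk32 : 32 * Real.log g / e ^ 3 ≤ k := by
    refine (Nat.le_ceil _).trans (le_trans ?_ hkK)
    exact_mod_cast (by omega : ⌈32 * Real.log g / e ^ 3⌉₊ ≤ K)
  have hek : 8 ≤ e * k := by
    rw [div_le_iff₀ he0] at hk8; linarith
  have hk0 : (0 : ℝ) < k := by
    have : 1 ≤ k := by omega
    positivity
  -- `θ ≤ 1`
  have hθle : θ ≤ 1 := by
    have h1 := hcard 0 (by omega)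
    have h2 : ((D 0).card : ℝ) ≤ g := by
      have := card_le_card (hsub 0 (by omega))
      rw [card_range] at this
      exact_mod_cast this
    have h3 : (g : ℝ) ^ θ ≤ (g : ℝ) ^ (1 : ℝ) := by rw [Real.rpow_one]; exact h1.trans h2
    exact (Real.rpow_le_rpow_left_iff (by linarith)).1 h3
  set D' : ℕ → Finset ℕ := fun i => if i < k then D i else range g with hD'
  have hD'1 : ∀ i, D' i ⊆ range g := by
    intro i
    simp only [hD']
    split_ifs with hi
    · exact hsub i hi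
    · exact subset_rfl
  have hD'2 : ∀ i, (g : ℝ) ^ θ ≤ (D' i).card := by
    intro i
    simp only [hD']
    split_ifs with hi
    · exact hcard i hi
    · rw [card_range]
      calc (g : ℝ) ^ θ ≤ (g : ℝ) ^ (1 : ℝ) := Real.rpow_le_rpow_of_exponent_le (by linarith) hθle
        _ = g := Real.rpow_one _
  have hD'3 : ∀ i, ((D' i).filter (fun d => d + 1 ∉ D' i)).card ≤ t + 1 := by
    intro i
    simp only [hD']
    split_ifs with hi
    · exact (hrun i hi).trans (by omega)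
    · exact (run_range g).trans (by omega)
  obtain ⟨F, hF⟩ := hg g hgg D' hD'1 hD'2 hD'3
  have hDD : dset g D k = dset g D' k := by
    apply dset_congr
    intro i hi
    simp only [hD', if_pos hi]
  rw [hDD]
  obtain ⟨hlt, hcards, -, hsm⟩ := hdset g D' (by omega) hD'1
  set S := dset g D' k with hS
  have h2D : ∀ i, 2 ≤ (D' i).card := by
    intro i
    have h1 : (2 : ℝ) ≤ (g : ℝ) ^ θ := by
      calc (2 : ℝ) = (4 : ℝ) ^ (1 / 2 : ℝ) := by
            rw [← Real.sqrt_eq_rpow, show (4 : ℝ) = 2 ^ 2 by norm_num, Real.sqrt_sq (by norm_num)]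
        _ ≤ (g : ℝ) ^ (1 / 2 : ℝ) := Real.rpow_le_rpow (by norm_num) hgr (by norm_num)
        _ ≤ _ := Real.rpow_le_rpow_of_exponent_le (by linarith) (by linarith)
    exact_mod_cast h1.trans (hD'2 i)
  have hSpos : 0 < S.card := by
    rw [hS, hcards]
    exact prod_pos fun i _ => by have := h2D i; omega
  -- logarithms
  set l : ℝ := Real.log ((g ^ k : ℕ) : ℝ) with hl
  have el : l = k * Real.log g := by rw [hl]; push_cast; rw [Real.log_pow]
  have hlk : (k : ℝ) ≤ l := by rw [el]; nlinarith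
  have hl8 : 8 / e ≤ l := hk8.trans hlk
  have hel : 8 ≤ e * l := by rw [div_le_iff₀ he0] at hl8; linarith
  have hl64 : 64 ≤ l := by nlinarith
  have hl0 : 0 < l := by linarith
  have hlr : Real.log ((g : ℝ) ^ k) = l := by rw [hl]; push_cast; rfl
  rw [hlr] at hy1
  have hyl : l ≤ y := by
    refine le_trans ?_ hy1
    calc l = l ^ 1 := (pow_one l).symm
      _ ≤ l ^ K := pow_le_pow_right₀ (by linarith) (by omega)
  have hy0 : 0 < y := by linarith
  have hye : 1 / e ≤ y := by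
    rw [div_le_iff₀ he0]
    nlinarith
  set H : ℕ := ⌊y⌋₊ with hH
  have hHy : (H : ℝ) ≤ y := Nat.floor_le hy0.le
  have hyH : y / 2 ≤ H := by
    have := Nat.lt_floor_add_one y
    rw [← hH] at this
    linarith
  have hHK : l ^ K₁ ≤ H := by
    have h1 : l ^ (K₁ + 1) ≤ l ^ K := pow_le_pow_right₀ (by linarith) (by omega)
    have h2 : 2 * l ^ K₁ ≤ l ^ (K₁ + 1) := by
      rw [pow_succ]
      have : 0 < l ^ K₁ := by positivity
      nlinarith
    linarith
  have hH1 : 1 ≤ H := by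
    have : (1 : ℝ) ≤ H := by linarith
    exact_mod_cast this
  have hHk : H ≤ g ^ k := by
    have : (H : ℝ) ≤ ((g ^ k : ℕ) : ℝ) := by push_cast; exact hHy.trans hy2
    exact_mod_cast this
  have hth := hT k (by omega) D' F hF b H hbk hH1 hHk hHK
  rw [pow_one] at hth
  -- the cut
  set v : ℕ := ⌊e * k / 2⌋₊ with hv
  have hv1 : (v : ℝ) ≤ e * k / 2 := Nat.floor_le (by positivity)
  have hv2 : e * k / 4 ≤ v := by
    have := Nat.lt_floor_add_one (e * k / 2)
    rw [← hv] at this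
    linarith
  have hvk : 2 * v ≤ k := by
    have : (2 : ℝ) * v ≤ k := by nlinarith
    exact_mod_cast this
  have hlog3 : Real.log 3 ≤ 2 := by
    have := Real.log_le_sub_one_of_pos (show (0 : ℝ) < 3 by norm_num)
    linarith
  have eΛ : Real.log ((3 * g ^ k : ℕ) : ℝ) = Real.log 3 + l := by
    have h1 : ((3 * g ^ k : ℕ) : ℝ) = 3 * ((g ^ k : ℕ) : ℝ) := by push_cast; ring
    rw [h1, Real.log_mul (by norm_num) (by positivity)]
  have hΛ1 : Real.log ((3 * g ^ k : ℕ) : ℝ) ≤ (1 + e) * l := by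
    rw [eΛ]; linarith
  refine (conv_avg S hSpos b (g ^ (k - 2 * v)) hb1 (Nat.one_le_pow _ _ (by omega)) e
    (Real.log ((3 * g ^ k : ℕ) : ℝ)) y he0 he1 hye ?_ ?_ ?_ ?_).trans he8
  · intro s hs
    have h1 := hlt k s hs
    apply Real.log_le_log
    · exact_mod_cast (by omega : 0 < s + b + ⌊y⌋₊)
    · exact_mod_cast (by omega : s + b + ⌊y⌋₊ ≤ 3 * g ^ k)
  · have h1 : Real.log ((g ^ (k - 2 * v) : ℕ) : ℝ) = (k - 2 * v) * Real.log g := by
      push_cast
      rw [Real.log_pow, Nat.cast_sub hvk]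
      push_cast; ring
    rw [h1]
    have h2 : (1 - e) * l ≤ (k - 2 * v) * Real.log g := by
      rw [el, ← mul_assoc]
      apply mul_le_mul_of_nonneg_right _ (by linarith)
      linarith
    refine le_trans ?_ h2
    have h3 := mul_le_mul_of_nonneg_left hΛ1 (show 0 ≤ 1 - 2 * e by linarith)
    refine h3.trans ?_
    rw [← mul_assoc]
    apply mul_le_mul_of_nonneg_right _ hl0.le
    nlinarith
  · have h1 := hsm k (2 * v) hvk
    have h2 : (∏ i ∈ range (k - 2 * v), (D' i).card) * 2 ^ (2 * v) ≤ S.card := by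
      rw [hS, hcards]
      have h3 : ∏ i ∈ range k, (D' i).card = (∏ i ∈ range (k - 2 * v), (D' i).card) *
          ∏ i ∈ range (2 * v), (D' (k - 2 * v + i)).card := by
        conv_lhs => rw [show k = (k - 2 * v) + 2 * v by omega]
        rw [prod_range_add]
      rw [h3]
      apply Nat.mul_le_mul_left
      calc 2 ^ (2 * v) = ∏ _i ∈ range (2 * v), 2 := by rw [prod_const, card_range]
        _ ≤ _ := prod_le_prod' fun i _ => h2D _
    have h3 : ((S.filter (fun s => s < g ^ (k - 2 * v))).card : ℝ) * 2 ^ (2 * v) ≤ S.card := by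
      have := (Nat.mul_le_mul_right (2 ^ (2 * v)) h1).trans h2
      exact_mod_cast this
    have h4 : (e * k / 4) ^ 2 ≤ (2 : ℝ) ^ (2 * v) := by
      have h5 : (v : ℝ) ≤ 2 ^ v := by exact_mod_cast (Nat.lt_two_pow_self (n := v)).le
      calc (e * k / 4) ^ 2 ≤ (2 ^ v) ^ 2 := pow_le_pow_left₀ (by positivity) (hv2.trans h5) _
        _ = _ := by rw [← pow_mul, mul_comm]
    have h5 : Real.log ((3 * g ^ k : ℕ) : ℝ) ≤ e * 2 ^ (2 * v) := by
      have h6 : Real.log ((3 * g ^ k : ℕ) : ℝ) ≤ 2 * (k * Real.log g) := by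
        rw [← el]
        refine hΛ1.trans ?_
        nlinarith
      rw [div_le_iff₀ (by positivity)] at hk32
      have h7 : 2 * (k * Real.log g) ≤ e * (e * k / 4) ^ 2 := by nlinarith
      exact h6.trans (h7.trans (mul_le_mul_of_nonneg_left h4 he0.le))
    calc ((S.filter (fun s => s < g ^ (k - 2 * v))).card : ℝ) * Real.log ((3 * g ^ k : ℕ) : ℝ) ≤
          ((S.filter (fun s => s < g ^ (k - 2 * v))).card : ℝ) * (e * 2 ^ (2 * v)) :=
          mul_le_mul_of_nonneg_left h5 (Nat.cast_nonneg _)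
      _ = e * (((S.filter (fun s => s < g ^ (k - 2 * v))).card : ℝ) * 2 ^ (2 * v)) := by ring
      _ ≤ e * S.card := mul_le_mul_of_nonneg_left h3 he0.le
  · have h0 : 0 ≤ (H : ℝ) * S.card := by positivity
    rw [← le_div_iff₀ hl0] at hth
    refine hth.trans ?_
    rw [div_le_iff₀ hl0]
    nlinarith

end Pool.Agent.K1H33.RD
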