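import Pool.Agent.K1H84.RD.Stm

/-! Restricted digits: the full `L¹` norm and the majorants for the digit sets. -/

set_option autoImplicit false

namespace Pool.Agent.K1H33.RD

open Finset Filter
open Pool.Agent.W301.SS
open Pool.Agent.H807R2.Dav
open Pool.Agent.K1H84.RD

lemma sum_range_mul_split {β : Type*} [AddCommMonoid β] (g n : ℕ) (f : ℕ → β) :
    ∑ r ∈ range (g * n), f r = ∑ a ∈ range g, ∑ j ∈ range n, f (a + g * j) := by
  rw [sum_comm]
  induction n with
  | zero => simp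
  | succ n ih =>
    rw [Nat.mul_succ, sum_range_add, ih, sum_range_succ]
    congr 1
    apply sum_congr rfl
    intro a _
    rw [add_comm]

lemma per_nat {F : ℝ → ℝ} (h : ∀ x, F (x + 1) = F x) (x : ℝ) (n : ℕ) : F (x + n) = F x := by
  induction n with
  | zero => simp
  | succ n ih => rw [Nat.cast_succ, ← add_assoc, h, ih]

/-- the product inequality -/
lemma prod_sum_le (g : ℕ) (hg : 1 ≤ g) (F : ℕ → ℝ → ℝ) (Λ : ℕ → ℝ) (h0 : ∀ i x, 0 ≤ F i x)
    (hper : ∀ i x, F i (x + 1) = F i x)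
    (hs : ∀ i x, ∑ j ∈ range g, F i (x + (j : ℝ) / g) ≤ Λ i) (m : ℕ) :
    ∀ x : ℝ, ∑ j ∈ range (g ^ m), ∏ i ∈ range m, F i ((g : ℝ) ^ i * (x + (j : ℝ) / (g : ℝ) ^ m)) ≤
      ∏ i ∈ range m, Λ i := by
  have hg0 : (g : ℝ) ≠ 0 := by positivity
  have hΛ : ∀ i, 0 ≤ Λ i := fun i => (sum_nonneg fun j _ => h0 i _).trans (hs i 0)
  induction m with
  | zero => intro x; simp
  | succ m ih =>
    intro x
    rw [pow_succ', sum_range_mul_split]
    have h1 : ∀ a ∈ range g, ∑ j ∈ range (g ^ m), ∏ i ∈ range (m + 1),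
        F i ((g : ℝ) ^ i * (x + ((a + g * j : ℕ) : ℝ) / ((g : ℝ) ^ (m + 1)))) ≤
        (∏ i ∈ range m, Λ i) * F m ((g : ℝ) ^ m * x + (a : ℝ) / g) := by
      intro a _
      have h2 := ih (x + (a : ℝ) / ((g : ℝ) * (g : ℝ) ^ m))
      have h3 := mul_le_mul_of_nonneg_right h2 (h0 m ((g : ℝ) ^ m * x + (a : ℝ) / g))
      refine le_trans (le_of_eq ?_) h3
      rw [sum_mul]
      apply sum_congr rfl
      intro j _
      rw [prod_range_succ]
      congr 1
      · apply prod_congr rfl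
        intro i _
        congr 1
        push_cast
        field_simp
        ring
      · rw [← per_nat (hper m) ((g : ℝ) ^ m * x + (a : ℝ) / g) j]
        congr 1
        push_cast
        field_simp
        ring
    refine (sum_le_sum h1).trans ?_
    rw [← mul_sum, prod_range_succ]
    exact mul_le_mul_of_nonneg_left (hs m _) (prod_nonneg fun i _ => hΛ i)

theorem t_L1 (h : S_DSET) : S_L1 := by
  intro g D F δ hg hδ hM k
  obtain ⟨_, hcard, hFA, _⟩ := h g D hg hM.sub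
  have hg0 : (0 : ℝ) < g := by positivity
  have h0 : ∀ i x, 0 ≤ F i x := fun i x =>
    (norm_nonneg _).trans (hM.bd i x 0 (by rw [abs_zero]; positivity))
  have hb : ∀ i x, ‖FA (D i) x‖ ≤ F i x := fun i x => by
    have := hM.bd i x 0 (by rw [abs_zero]; positivity)
    rwa [add_zero] at this
  have h1 : ∀ r ∈ range (g ^ (k + 1)), ‖FA (dset g D k) ((r : ℝ) / ((g ^ (k + 1) : ℕ) : ℝ))‖ ≤
      ∏ i ∈ range k, F i ((g : ℝ) ^ i * ((r : ℝ) / ((g : ℝ) ^ (k + 1)))) := by
    intro r _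
    rw [hFA, norm_prod]
    push_cast
    exact prod_le_prod (fun i _ => norm_nonneg _) (fun i _ => hb i _)
  refine (sum_le_sum h1).trans ?_
  rw [pow_succ', sum_range_mul_split]
  have h2 : ∀ a ∈ range g, ∑ j ∈ range (g ^ k), ∏ i ∈ range k,
      F i ((g : ℝ) ^ i * (((a + g * j : ℕ) : ℝ) / ((g : ℝ) ^ (k + 1)))) ≤
      ∏ i ∈ range k, ((g : ℝ) ^ δ * (D i).card) := by
    intro a _
    refine le_trans (le_of_eq ?_) (prod_sum_le g (by omega) F _ h0 hM.per hM.sum k
      ((a : ℝ) / (g : ℝ) ^ (k + 1)))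
    apply sum_congr rfl
    intro j _
    apply prod_congr rfl
    intro i _
    congr 1
    push_cast
    field_simp
    ring
  refine (sum_le_sum h2).trans ?_
  rw [sum_const, card_range, nsmul_eq_mul, prod_mul_distrib, prod_const, card_range, hcard,
    Real.rpow_mul_natCast hg0.le]
  push_cast
  rw [mul_assoc]

/-! ### The majorants -/

lemma run_bound (A : Finset ℕ) (t : ℕ) (ht : (A.filter (fun d => d + 1 ∉ A)).card ≤ t) (x : ℝ) :
    dd x * ‖FA A x‖ ≤ 2 * t := by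
  classical
  set B : Finset ℕ := A.image (· + 1) with hB
  have hinj : Function.Injective (fun d : ℕ => d + 1) := add_left_injective 1
  have hBA : (B \ A).card ≤ t := by
    have : B \ A = (A.filter (fun d => d + 1 ∉ A)).image (· + 1) := by
      ext n
      simp only [hB, Finset.mem_sdiff, mem_image, mem_filter]
      constructor
      · rintro ⟨⟨d, hd, rfl⟩, h⟩
        exact ⟨d, ⟨hd, h⟩, rfl⟩
      · rintro ⟨d, ⟨hd, h⟩, rfl⟩
        exact ⟨⟨d, hd, rfl⟩, h⟩
    rw [this, card_image_of_injective _ hinj]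
    exact ht
  have hcard : B.card = A.card := card_image_of_injective _ hinj
  have hAB : (A \ B).card ≤ t := by
    rw [card_sdiff_comm hcard.symm]
    exact hBA
  have h1 : (1 - ee x) * FA A x = ∑ a ∈ A \ B, ee (a * x) - ∑ a ∈ B \ A, ee (a * x) := by
    have h2 : ee x * FA A x = ∑ b ∈ B, ee (b * x) := by
      rw [hB, sum_image (fun a _ b _ hab => hinj hab)]
      unfold FA
      rw [mul_sum]
      apply sum_congr rfl
      intro a _
      rw [← ee_add]
      congr 1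
      push_cast; ring
    have h3 : ∑ a ∈ A \ B, ee ((a : ℝ) * x) + ∑ a ∈ A ∩ B, ee ((a : ℝ) * x) =
        ∑ a ∈ A, ee ((a : ℝ) * x) := by
      rw [add_comm, sum_inter_add_sum_sdiff]
    have h4 : ∑ a ∈ B \ A, ee ((a : ℝ) * x) + ∑ a ∈ A ∩ B, ee ((a : ℝ) * x) =
        ∑ a ∈ B, ee ((a : ℝ) * x) := by
      rw [inter_comm, add_comm, sum_inter_add_sum_sdiff]
    rw [sub_mul, one_mul, h2, ← h4]
    unfold FA
    rw [← h3]
    ring
  have h5 : dd x * ‖FA A x‖ = ‖(1 - ee x) * FA A x‖ := by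
    rw [norm_mul]; rfl
  rw [h5, h1]
  have h6 : ∀ C : Finset ℕ, C.card ≤ t → ‖∑ a ∈ C, ee ((a : ℝ) * x)‖ ≤ t := by
    intro C hC
    refine (norm_sum_le _ _).trans ?_
    simp only [norm_ee, sum_const, nsmul_eq_mul, mul_one]
    exact_mod_cast hC
  refine (norm_sub_le _ _).trans ?_
  have := h6 _ hAB
  have := h6 _ hBA
  linarith

lemma FA_card (A : Finset ℕ) (x : ℝ) : ‖FA A x‖ ≤ A.card := by
  unfold FA
  refine (norm_sum_le _ _).trans ?_
  simp only [norm_ee, sum_const, nsmul_eq_mul, mul_one, le_refl]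

lemma FA_le_KK {g : ℕ} (hg : 1 ≤ g) (A : Finset ℕ) (hA : A ⊆ range g) (t : ℕ)
    (ht : (A.filter (fun d => d + 1 ∉ A)).card ≤ t) (x : ℝ) :
    ‖FA A x‖ ≤ (1 + 2 * t) / 3 * KK g x := by
  have h1 := run_bound A t ht x
  have h2 := FA_card A x
  have h3 : (A.card : ℝ) ≤ g := by
    have := card_le_card hA
    rw [card_range] at this
    exact_mod_cast this
  have h0 := dd_nonneg x
  have hg0 : (0 : ℝ) < g := by positivity
  unfold KK
  rw [div_mul_div_comm, le_div_iff₀ (by positivity)]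
  have h4 : (g : ℝ) * (dd x * ‖FA A x‖) ≤ g * (2 * t) := mul_le_mul_of_nonneg_left h1 hg0.le
  nlinarith

lemma KK_shift {g : ℕ} (hg : 1 ≤ g) (x s : ℝ) (hs : |s| ≤ 2 / (g : ℝ)) :
    KK g (x + s) ≤ 14 * KK g x := by
  have hg0 : (0 : ℝ) < g := by positivity
  have h0 := dd_nonneg x
  have h1 := dd_nonneg (x + s)
  have h2 := dd_add_ge x s
  have hpi : Real.pi < 3.15 := Real.pi_lt_d2
  have hpi0 := Real.pi_pos
  have h3 : (g : ℝ) * (2 * Real.pi * |s|) ≤ 12.6 := by
    have : (g : ℝ) * |s| ≤ 2 := by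
      have := mul_le_mul_of_nonneg_left hs hg0.le
      rwa [mul_div_cancel₀ _ hg0.ne'] at this
    have h5 : 0 ≤ (g : ℝ) * |s| := by positivity
    nlinarith
  have h4 : (g : ℝ) * dd x ≤ g * dd (x + s) + 12.6 := by
    have := mul_le_mul_of_nonneg_left h2 hg0.le
    rw [mul_sub] at this
    linarith
  unfold KK
  rw [← mul_div_assoc, div_le_div_iff₀ (by positivity) (by positivity)]
  have h5 : 0 ≤ (g : ℝ) * dd (x + s) := by positivity
  nlinarith

lemma KK_sum {g : ℕ} (hg : 1 ≤ g) (x : ℝ) :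
    ∑ j ∈ range g, KK g (x + (j : ℝ) / g) ≤ (42 + 3 * Real.log g) * g := by
  have hg0 : (0 : ℝ) < g := by positivity
  have h := vino_block hg (a := 1) isCoprime_one_left (α := 1 / g) (by
    rw [Int.cast_one, sub_self, abs_zero]; positivity) hg0.le x
  refine le_trans (le_of_eq ?_) (h.trans (le_of_eq ?_))
  · apply sum_congr rfl
    intro j _
    rw [mul_one_div]
  · ring

theorem t_MAJ : S_MAJ := by
  intro θ t hθ
  obtain ⟨δ, hδ0, hδ1, hδ2⟩ : ∃ δ : ℝ, 0 ≤ δ ∧ δ < 1 / 5 ∧ 1 - θ < δ := by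
    refine ⟨(1 / 5 + max 0 (1 - θ)) / 2, ?_, ?_, ?_⟩
    · have := le_max_left 0 (1 - θ); linarith
    · have : max 0 (1 - θ) < 1 / 5 := max_lt (by norm_num) (by linarith)
      linarith
    · have h1 := le_max_right 0 (1 - θ)
      linarith
  refine ⟨δ, hδ0, hδ1, ?_⟩
  set η : ℝ := δ + θ - 1 with hη
  have hη0 : 0 < η := by rw [hη]; linarith
  have hlim : ∀ᶠ x : ℝ in atTop, 5 * (1 + 2 * (t : ℝ)) * (42 + 3 * Real.log x) ≤ x ^ η := by
    have h1 : Tendsto (fun x : ℝ => x ^ (-η)) atTop (nhds 0) := tendsto_rpow_neg_atTop hη0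
    have h2 : Tendsto (fun x : ℝ => Real.log x / x ^ η) atTop (nhds 0) :=
      (isLittleO_log_rpow_atTop hη0).tendsto_div_nhds_zero
    have h3 : Tendsto (fun x : ℝ => 5 * (1 + 2 * (t : ℝ)) * (42 * x ^ (-η) + 3 * (Real.log x / x ^ η)))
        atTop (nhds (5 * (1 + 2 * (t : ℝ)) * (42 * 0 + 3 * 0))) :=
      ((h1.const_mul 42).add (h2.const_mul 3)).const_mul _
    rw [mul_zero, mul_zero, add_zero, mul_zero] at h3
    filter_upwards [h3.eventually (gt_mem_nhds (show (0 : ℝ) < 1 by norm_num)), eventually_gt_atTop 0]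
      with x hx hx0
    have hp : 0 < x ^ η := Real.rpow_pos_of_pos hx0 _
    rw [Real.rpow_neg hx0.le] at hx
    have h4 : 5 * (1 + 2 * (t : ℝ)) * (42 * (x ^ η)⁻¹ + 3 * (Real.log x / x ^ η)) =
        5 * (1 + 2 * (t : ℝ)) * (42 + 3 * Real.log x) / x ^ η := by
      field_simp
    rw [h4, div_lt_one hp] at hx
    exact hx.le
  obtain ⟨x₀, hx₀⟩ := eventually_atTop.1 hlim
  refine ⟨max 4 ⌈x₀⌉₊, le_max_left _ _, fun g hg D hsub hcard hrun => ?_⟩
  have hg4 : 4 ≤ g := (le_max_left _ _).trans hg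
  have hgx : x₀ ≤ g := (Nat.le_ceil _).trans (by exact_mod_cast (le_max_right _ _).trans hg)
  have hg0 : (0 : ℝ) < g := by positivity
  refine ⟨fun i x => 5 * (1 + 2 * (t : ℝ)) * KK g x, hsub, fun i => ?_, fun i x => ?_, fun i x s hs => ?_,
    fun i x => ?_⟩
  · rw [← card_pos]
    have h1 : (0 : ℝ) < (D i).card := (Real.rpow_pos_of_pos hg0 θ).trans_le (hcard i)
    exact_mod_cast h1
  · have := dd_add_int x 1
    rw [Int.cast_one] at this
    simp only [KK, this]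
  · have h1 := FA_le_KK (by omega : 1 ≤ g) (D i) (hsub i) t (hrun i) (x + s)
    have h2 := KK_shift (by omega : 1 ≤ g) x s hs
    have h3 := KK_nonneg hg0.le x
    have h4 : (1 + 2 * (t : ℝ)) / 3 * KK g (x + s) ≤ (1 + 2 * (t : ℝ)) / 3 * (14 * KK g x) :=
      mul_le_mul_of_nonneg_left h2 (by positivity)
    refine h1.trans (h4.trans ?_)
    have h5 : 0 ≤ (1 + 2 * (t : ℝ)) * KK g x := by positivity
    nlinarith
  · have h1 := KK_sum (by omega : 1 ≤ g) x
    rw [← mul_sum]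
    have h2 : 5 * (1 + 2 * (t : ℝ)) * (∑ j ∈ range g, KK g (x + (j : ℝ) / g)) ≤
        5 * (1 + 2 * (t : ℝ)) * ((42 + 3 * Real.log g) * g) :=
      mul_le_mul_of_nonneg_left h1 (by positivity)
    have h3 := hx₀ g hgx
    have h4 : 5 * (1 + 2 * (t : ℝ)) * ((42 + 3 * Real.log g) * g) ≤ (g : ℝ) ^ η * g := by
      rw [← mul_assoc]
      exact mul_le_mul_of_nonneg_right h3 hg0.le
    have h5 : (g : ℝ) ^ η * g = (g : ℝ) ^ δ * (g : ℝ) ^ θ := by
      rw [← Real.rpow_add hg0, show δ + θ = η + 1 by rw [hη]; ring, Real.rpow_add hg0, Real.rpow_one]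
    have h6 : (g : ℝ) ^ δ * (g : ℝ) ^ θ ≤ (g : ℝ) ^ δ * (D i).card :=
      mul_le_mul_of_nonneg_left (hcard i) (by positivity)
    exact h2.trans (h4.trans (h5.le.trans h6))

end Pool.Agent.K1H33.RD
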