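import Pool.Agent.K1H84.RD.Stm

/-! Restricted digits: weighted counts for every translate. -/

set_option autoImplicit false

namespace Pool.Agent.K1H33.RD

open Finset Filter
open Pool.Agent.W301.SS
open Pool.Agent.H807R2.Dav
open Pool.Agent.K1H84.RD

lemma FA_singleton (b : ℕ) (x : ℝ) : ‖FA {b} x‖ = 1 := by
  unfold FA
  rw [sum_singleton, norm_ee]

/-- The difference of two averages in terms of the exponential sums. -/
lemma diff_le {N M : ℕ} (hNM : N < M) (S : Finset ℕ) (b H H1 : ℕ) (hH : H ≤ H1)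
    (hN : ∀ a ∈ S, a + b + H1 ≤ N) :
    (M : ℝ) * |TT S {b} H / H - TT S {b} H1 / H1| ≤
      ∑ r ∈ range M, ‖SP N (-((r : ℝ) / M))‖ * (‖FA S ((r : ℝ) / M)‖ *
        ‖FK H ((r : ℝ) / M) / H - FK H1 ((r : ℝ) / M) / H1‖) := by
  have h1 := TT_fourier hNM S {b} H (fun a ha c hc => by
    rw [mem_singleton] at hc
    subst hc
    have := hN a ha; omega)
  have h2 := TT_fourier hNM S {b} H1 (fun a ha c hc => by
    rw [mem_singleton] at hc
    subst hc
    exact hN a ha)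
  have h3 : (M : ℂ) * (((TT S {b} H / H - TT S {b} H1 / H1 : ℝ)) : ℂ) =
      ∑ r ∈ range M, SP N (-((r : ℝ) / M)) * (FA S ((r : ℝ) / M) * FA {b} ((r : ℝ) / M) *
        (FK H ((r : ℝ) / M) / H - FK H1 ((r : ℝ) / M) / H1)) := by
    push_cast
    rw [mul_sub, ← mul_div_assoc, ← mul_div_assoc, h1, h2, sum_div, sum_div, ← sum_sub_distrib]
    apply sum_congr rfl
    intro r _
    ring
  have h5 : (M : ℝ) * |TT S {b} H / H - TT S {b} H1 / H1| =
      ‖(M : ℂ) * (((TT S {b} H / H - TT S {b} H1 / H1 : ℝ)) : ℂ)‖ := by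
    rw [norm_mul, Complex.norm_natCast, Complex.norm_real, Real.norm_eq_abs]
  rw [h5, h3]
  refine (norm_sum_le _ _).trans (sum_le_sum fun r hrm => ?_)
  rw [norm_mul, norm_mul, norm_mul, FA_singleton, mul_one]

theorem t_THETA (hmain : S_MAIN) (hdset : S_DSET) : S_THETA := by
  intro g δ hg hδ0 hδ1 A
  obtain ⟨B, K', k₀', hm⟩ := hmain g δ hg hδ0 hδ1 (A + 2)
  have hM : Tendsto (fun k : ℕ => g ^ (k + 1)) atTop atTop :=
    (tendsto_pow_atTop_atTop_of_one_lt (by omega : 1 < g)).comp (tendsto_add_atTop_nat 1)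
  have hev := hM.eventually ((ev_L (2 ^ (K' + 1) + 8)).and ((pnt_unif (B + 1 + A + 3)).and
    (ev_log (B + 1) 2 1 one_pos)))
  obtain ⟨k₁, hk₁⟩ := eventually_atTop.1 hev
  refine ⟨K' + 1, k₁ + k₀' + 1, fun k hk D F hMaj b H hb hH1 hHk hHl => ?_⟩
  obtain ⟨hlt, -, -, -⟩ := hdset g D (by omega) hMaj.sub
  obtain ⟨hL, hpnt, hlog⟩ := hk₁ k (by omega)
  set S := dset g D k with hS
  set M : ℕ := g ^ (k + 1) with hMdef
  set ℓ : ℝ := Real.log (M : ℝ) with hℓ
  set l : ℝ := Real.log ((g ^ k : ℕ) : ℝ) with hl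
  have hg0 : (0 : ℝ) < g := by positivity
  have hg1 : (1 : ℝ) ≤ g := by exact_mod_cast (by omega : 1 ≤ g)
  have hlg : 0 ≤ Real.log g := Real.log_nonneg hg1
  have hk1 : (1 : ℝ) ≤ k := by exact_mod_cast (by omega : 1 ≤ k)
  have el : l = k * Real.log g := by rw [hl]; push_cast; rw [Real.log_pow]
  have eℓ : ℓ = (k + 1) * Real.log g := by rw [hℓ, hMdef]; push_cast; rw [Real.log_pow]; push_cast; rfl
  have hlℓ : l ≤ ℓ := by rw [el, eℓ]; nlinarith
  have hℓl : ℓ ≤ 2 * l := by rw [el, eℓ]; nlinarith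
  have hp2 : (0 : ℝ) < 2 ^ (K' + 1) := by positivity
  have hℓ8 : 8 ≤ ℓ := by linarith
  have hℓ0 : 0 < ℓ := by linarith
  have hl2 : (2 : ℝ) ^ K' ≤ l := by
    have : (2 : ℝ) ^ (K' + 1) = 2 * 2 ^ K' := by rw [pow_succ]; ring
    linarith
  have hl0 : 0 < l := by linarith
  have hM0 : (0 : ℝ) < M := by rw [hMdef]; positivity
  have hMk : (M : ℝ) = g * ((g ^ k : ℕ) : ℝ) := by rw [hMdef, pow_succ]; push_cast; ring
  have hgk0 : (0 : ℝ) < ((g ^ k : ℕ) : ℝ) := by positivity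
  have hgk : g ^ k ≤ M := Nat.pow_le_pow_right (by omega) (by omega)
  have hH0 : (0 : ℝ) < H := by exact_mod_cast hH1
  rw [Real.rpow_one] at hlog
  -- the long interval
  set H1 : ℕ := ⌊(M : ℝ) / ℓ ^ (B + 1)⌋₊ with hH1def
  have hH1le : (H1 : ℝ) ≤ M / ℓ ^ (B + 1) := Nat.floor_le (by positivity)
  have hx2 : 2 ≤ (M : ℝ) / ℓ ^ (B + 1) := by
    rw [le_div_iff₀ (by positivity)]; exact hlog
  have hH1ge : (M : ℝ) / ℓ ^ (B + 1) / 2 ≤ H1 := by
    have := Nat.lt_floor_add_one ((M : ℝ) / ℓ ^ (B + 1))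
    rw [← hH1def] at this
    linarith
  have hH1M : (M : ℝ) ≤ 2 * H1 * ℓ ^ (B + 1) := by
    rw [div_div, div_le_iff₀ (by positivity)] at hH1ge
    linarith
  have hH1pos : 1 ≤ H1 := by
    have : (1 : ℝ) ≤ H1 := by linarith
    exact_mod_cast this
  have hH10 : (0 : ℝ) < H1 := by exact_mod_cast hH1pos
  have hH1M' : (H1 : ℝ) * ℓ ^ (B + 1) ≤ M := by
    rwa [le_div_iff₀ (by positivity)] at hH1le
  have hH1B : (H1 : ℝ) * ℓ ^ B ≤ M := by
    refine le_trans ?_ hH1M'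
    apply mul_le_mul_of_nonneg_left _ hH10.le
    exact pow_le_pow_right₀ (by linarith) (by omega)
  have hH1quarter : 4 * H1 ≤ M := by
    have h1 : (4 : ℝ) ≤ ℓ ^ (B + 1) := by
      calc (4 : ℝ) ≤ ℓ := by linarith
        _ = ℓ ^ 1 := (pow_one _).symm
        _ ≤ _ := pow_le_pow_right₀ (by linarith) (by omega)
    have h2 : (4 : ℝ) * H1 ≤ M := by nlinarith
    exact_mod_cast h2
  have hgkM : 4 * g ^ k ≤ M := by
    rw [hMdef, pow_succ, mul_comm]
    exact Nat.mul_le_mul_left _ hg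
  -- the prime number theorem
  have hP : ∀ y : ℕ, y ≤ 2 * M → |TT S {b} y - (S.card : ℝ) * y| ≤
      (S.card : ℝ) * (2 * (M / ℓ ^ (B + 1 + A + 3))) := by
    intro y hy
    have := TT_pnt S {b} M y (fun a ha => by have := hlt k a ha; omega)
      (fun c hc => by rw [mem_singleton] at hc; omega) hy _ hpnt
    rwa [card_singleton, Nat.cast_one, mul_one] at this
  have hn0 : (0 : ℝ) ≤ S.card := Nat.cast_nonneg _
  have eTT : ∑ s ∈ S, ∑ h ∈ Ioc 0 H, om (s + b + h) = TT S {b} H := by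
    unfold TT
    apply sum_congr rfl
    intro s _
    rw [sum_singleton]
  rw [eTT]
  have hlA : l ^ A ≤ ℓ ^ A := pow_le_pow_left₀ hl0.le hlℓ _
  have hfin : ∀ e : ℝ, e ≤ (H : ℝ) * S.card / ℓ ^ A → e * l ^ A ≤ H * S.card := by
    intro e he
    have h1 : 0 ≤ (H : ℝ) * S.card / ℓ ^ A := by positivity
    calc e * l ^ A ≤ ((H : ℝ) * S.card / ℓ ^ A) * l ^ A :=
          mul_le_mul_of_nonneg_right he (by positivity)
      _ ≤ ((H : ℝ) * S.card / ℓ ^ A) * ℓ ^ A := mul_le_mul_of_nonneg_left hlA h1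
      _ = _ := by field_simp
  have hE : (M : ℝ) / ℓ ^ (B + 1 + A + 3) ≤ 2 * H1 / (ℓ ^ A * ℓ ^ 3) := by
    rw [div_le_div_iff₀ (by positivity) (by positivity)]
    calc (M : ℝ) * (ℓ ^ A * ℓ ^ 3) ≤ (2 * H1 * ℓ ^ (B + 1)) * (ℓ ^ A * ℓ ^ 3) :=
          mul_le_mul_of_nonneg_right hH1M (by positivity)
      _ = _ := by rw [pow_add, pow_add]; ring
  have h3 : (512 : ℝ) ≤ ℓ ^ 3 := by
    calc (512 : ℝ) = 8 ^ 3 := by norm_num
      _ ≤ _ := pow_le_pow_left₀ (by norm_num) hℓ8 _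
  have hE' : (M : ℝ) / ℓ ^ (B + 1 + A + 3) ≤ H1 / ℓ ^ A / 4 := by
    refine hE.trans ?_
    rw [div_div, div_le_div_iff₀ (by positivity) (by positivity)]
    have : (0 : ℝ) < H1 * ℓ ^ A := by positivity
    nlinarith
  apply hfin
  rcases le_or_gt H H1 with hHH | hHH
  · -- short intervals
    have hmr := hm k (by omega) D F hMaj M hMdef H H1 hH1 (by
      calc ℓ ^ K' ≤ (2 * l) ^ K' := pow_le_pow_left₀ hℓ0.le hℓl _
        _ = 2 ^ K' * l ^ K' := mul_pow _ _ _
        _ ≤ l * l ^ K' := mul_le_mul_of_nonneg_right hl2 (by positivity)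
        _ = l ^ (K' + 1) := by rw [pow_succ]; ring
        _ ≤ H := hHl) hHH hH1B
    rw [← sum_mul] at hmr
    have hd := diff_le (N := M - 1) (M := M) (by omega) S b H H1 hHH (fun a ha => by
      have := hlt k a ha
      omega)
    have hd2 : |TT S {b} H / H - TT S {b} H1 / H1| ≤ S.card / ℓ ^ (A + 2) := by
      rw [le_div_iff₀ (by positivity)]
      have h4 := mul_le_mul_of_nonneg_right hd (show 0 ≤ ℓ ^ (A + 2) by positivity)
      have h5 := h4.trans hmr
      rw [mul_assoc] at h5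
      exact le_of_mul_le_mul_left h5 hM0
    have hd3 : |TT S {b} H1 / H1 - S.card| ≤ S.card / ℓ ^ A / 2 := by
      have h4 := hP H1 (by omega)
      have h5 : TT S {b} H1 / H1 - S.card = (TT S {b} H1 - S.card * H1) / H1 := by
        field_simp
      rw [h5, abs_div, abs_of_pos hH10, div_le_iff₀ hH10]
      refine h4.trans ?_
      calc (S.card : ℝ) * (2 * (M / ℓ ^ (B + 1 + A + 3))) ≤ S.card * (2 * (H1 / ℓ ^ A / 4)) := by
            gcongr
        _ = _ := by ring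
    have hd4 : (S.card : ℝ) / ℓ ^ (A + 2) ≤ S.card / ℓ ^ A / 2 := by
      rw [div_div]
      apply div_le_div_of_nonneg_left hn0 (by positivity)
      rw [pow_add]
      apply mul_le_mul_of_nonneg_left _ (by positivity)
      nlinarith
    have hd5 : |TT S {b} H / H - S.card| ≤ S.card / ℓ ^ A := by
      have := abs_sub_le (TT S {b} H / H) (TT S {b} H1 / H1) (S.card : ℝ)
      linarith
    have h6 : TT S {b} H - H * S.card = (TT S {b} H / H - S.card) * H := by
      field_simp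
    rw [h6, abs_mul, abs_of_pos hH0]
    calc |TT S {b} H / H - S.card| * H ≤ S.card / ℓ ^ A * H :=
          mul_le_mul_of_nonneg_right hd5 hH0.le
      _ = _ := by ring
  · -- long intervals
    have h4 := hP H (by omega)
    rw [mul_comm (H : ℝ)]
    refine h4.trans ?_
    have hHH' : (H1 : ℝ) ≤ H := by exact_mod_cast hHH.le
    calc (S.card : ℝ) * (2 * (M / ℓ ^ (B + 1 + A + 3))) ≤ S.card * (2 * (H1 / ℓ ^ A / 4)) := by
          gcongr
      _ ≤ S.card * (2 * (H / ℓ ^ A / 2)) := by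
          gcongr ?_ * (2 * ?_)
          rw [div_div, div_div]
          apply div_le_div₀ hH0.le hHH' (by positivity)
          nlinarith [pow_pos hℓ0 A]
      _ = _ := by ring

end Pool.Agent.K1H33.RD
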